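import Mathlib
import Pool.Agent.CH.MainA
import Pool.Agent.CH.BMain

/-!
# MP_dd5cc1_an: nonzero QC functions on a set of positive measure with uniformly convergent Taylor series

The unit circle is `UnitAddCircle = ℝ / ℤ` (`x` stands for the point `exp (2 π i x)`), with its
translation invariant probability measure. We answer Q1 in the affirmative: every measurable set `E` of
positive measure supports a nonzero function `f` in `QC = VMO ∩ L^∞` whose Taylor series
`∑_{n ≥ 0} f̂(n) z^n` converges uniformly in the closed unit disc.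
-/

open MeasureTheory Filter Topology

namespace Pool.Agent.Results.MP_dd5cc1_an.FullAnswer

/-- vanishing mean oscillation on the circle: the mean over the arc `Metric.ball c r` of
`|f - (mean of f over this arc)|` tends to zero uniformly in the centre `c` as the radius `r` tends
to zero -/
def VMO (f : UnitAddCircle → ℂ) : Prop :=
  ∀ ε : ℝ, 0 < ε → ∃ δ : ℝ, 0 < δ ∧ ∀ (c : UnitAddCircle) (r : ℝ), 0 < r → r < δ →
    ⨍ x in Metric.ball c r, ‖f x - ⨍ y in Metric.ball c r, f y‖ < ε

/-- Every (Lebesgue) measurable set `E` of positive measure of the circle supports a bounded function `f`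
of vanishing mean oscillation, which is not almost everywhere zero, and whose Taylor partial sums
converge uniformly on the closed unit disc. -/
theorem result (E : Set UnitAddCircle) (hE : NullMeasurableSet E volume) (hpos : 0 < volume E) :
    ∃ f : UnitAddCircle → ℂ, Measurable f ∧ (∃ A : ℝ, ∀ x, ‖f x‖ ≤ A) ∧ VMO f ∧
      (∀ x, x ∉ E → f x = 0) ∧ ¬ (f =ᵐ[volume] fun _ => 0) ∧
      ∃ F : ℂ → ℂ, TendstoUniformlyOn
        (fun (n : ℕ) (z : ℂ) => ∑ k ∈ Finset.range n, fourierCoeff f k * z ^ k) F atTop
        (Metric.closedBall 0 1) := by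
  obtain ⟨C0, hC0⟩ := CH.thmC_exists
  obtain ⟨E', hE'E, hE'm, hE'⟩ := hE.exists_measurable_subset_ae_eq
  have hpos' : 0 < volume E' := by rwa [measure_congr hE']
  obtain ⟨f, h1, h2, h3, h4, h5, h6⟩ := CH.B.mainB C0 hC0 hE'm hpos'
  exact ⟨f, h1, h2, h5, fun x hx => h3 x fun h => hx (hE'E h), h4, h6⟩

end Pool.Agent.Results.MP_dd5cc1_an.FullAnswer
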